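import Pool.Agent.K7.H20.AW.Defs

/-!
# A reduction of the word problem for Artin groups along binary trees

Definitions used in the statements of `MP_a1ec0a_al.WordsOfBoundedWidth` and
`MP_a1ec0a_al.LocalityOfLabels`. Words are lists of syllables `(s, k)`, standing for `s ^ k`.
-/

set_option autoImplicit false

namespace Pool.Agent.Run7.h778.AW

open Pool.Agent.K7.H20.AW

/-- Binary trees with words at the leaves. -/
inductive Tr (S : Type) : Type
  | leaf (u : List (S × ℤ)) : Tr S
  | node (l r : Tr S) : Tr S

/-- The word of a tree: the words of the leaves, from the left to the right. -/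
def Tr.word {S : Type} : Tr S → List (S × ℤ)
  | .leaf u => u
  | .node l r => l.word ++ r.word

variable {S : Type} [DecidableEq S]

/-- The generators which occur in a word. -/
def gens (u : List (S × ℤ)) : Finset S := (u.map Prod.fst).toFinset

/-- The sets of a tree when the generators in `V` occur outside of it: for every leaf the set of its
generators; for every subtree which is a child of a node, and for the whole tree if it is a node,
the cut: the set of the generators which occur both inside and outside of the subtree. -/
def sets : Tr S → Finset S → List (Finset S)
  | .leaf u, _ => [gens u]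
  | .node l r, V =>
    (gens l.word ∩ (gens r.word ∪ V)) :: (gens r.word ∩ (gens l.word ∪ V)) ::
      (gens (l.word ++ r.word) ∩ V) :: (sets l (gens r.word ∪ V) ++ sets r (gens l.word ∪ V))

/-- The inverse word. -/
def invw (u : List (S × ℤ)) : List (S × ℤ) := (u.map fun p => (p.1, -p.2)).reverse

/-- The Coxeter matrix restricted to a set of generators. -/
def restrict (M : CoxeterMatrix S) (D : Finset S) : CoxeterMatrix D where
  M := Matrix.of fun i j => M i.1 j.1
  isSymm := by
    ext i j
    simp only [Matrix.transpose_apply, Matrix.of_apply]
    exact M.symmetric _ _
  diagonal i := by simp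
  off_diagonal i i' h := by
    simp only [Matrix.of_apply]
    exact M.off_diagonal _ _ (fun h' => h (Subtype.ext h'))

/-- A word over the set `D`, as a word over all generators. -/
def up {D : Finset S} (w : List (D × ℤ)) : List (S × ℤ) := w.map fun p => (p.1.1, p.2)

/-- All words with generators in `D` whose list of exponents is a sublist of the given list; `L` is a
list of all generators. -/
def cands (L : List S) (D : Finset S) : List ℤ → List (List (S × ℤ))
  | [] => [[]]
  | k :: ks => cands L D ks ++
    (L.filter fun s => s ∈ D).flatMap fun s => (cands L D ks).map fun d => (s, k) :: d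

/-- The procedure. `L` is a list of all generators, `V` is the set of the generators which occur
outside of the tree. The output is a list of words in the generators which occur both in the
tree and outside. `O D w` is the answer of an oracle to the question whether the word `w` over `D`
is trivial in the Artin group of the matrix restricted to `D`. -/
def alg (L : List S) (O : Finset S → List (S × ℤ) → Bool) :
    Tr S → Finset S → List (List (S × ℤ))
  | .leaf u, V => (cands L (gens u ∩ V) (u.map Prod.snd)).filter fun d => O (gens u) (u ++ invw d)
  | .node l r, V =>
    (alg L O l (gens r.word ∪ V)).flatMap fun x =>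
    (alg L O r (gens l.word ∪ V)).flatMap fun y =>
    (cands L ((gens l.word ∩ (gens r.word ∪ V)) ∩ (gens r.word ∩ (gens l.word ∪ V)))
      (x.map Prod.snd)).flatMap fun e =>
    ((cands L ((gens l.word ∩ (gens r.word ∪ V)) ∩ (gens (l.word ++ r.word) ∩ V))
      ((x ++ invw e).map Prod.snd)).filter fun a =>
        O (gens l.word ∩ (gens r.word ∪ V)) (x ++ invw (a ++ e))).flatMap fun a =>
    ((cands L ((gens r.word ∩ (gens l.word ∪ V)) ∩ (gens (l.word ++ r.word) ∩ V))
      ((e ++ y).map Prod.snd)).filter fun b =>
        O (gens r.word ∩ (gens l.word ∪ V)) (e ++ y ++ invw b)).flatMap fun b =>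
    (cands L (gens (l.word ++ r.word) ∩ V) ((l.word ++ r.word).map Prod.snd)).filter fun d =>
      O (gens (l.word ++ r.word) ∩ V) (a ++ b ++ invw d)

/-- The word `w` represents the identity in every finite quotient of the Artin group. -/
def DiesInFiniteQuotients {T : Type} (M : CoxeterMatrix T) (w : List (T × ℤ)) : Prop :=
  ∀ (F : Type) [Group F] [Finite F] (f : ArtinGroup M →* F), f (value M w) = 1

/-- No three different generators `i, j, k` have labels `m_ij` and `m_jk` finite and at least three
and `m_ik` finite (the entry `0` stands for infinity). -/
def RankTwo {T : Type} (M : CoxeterMatrix T) : Prop :=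
  ∀ i j k : T, i ≠ k → 3 ≤ M i j → 3 ≤ M j k → M i k = 0

/-- The Coxeter matrix in which the labels of all pairs which do not lie in a common set of the list
are replaced by infinity (the entry `0`). -/
def localize (M : CoxeterMatrix S) (Ds : List (Finset S)) : CoxeterMatrix S where
  M := Matrix.of fun i j => if i = j then 1 else if ∃ D ∈ Ds, i ∈ D ∧ j ∈ D then M i j else 0
  isSymm := by
    ext i j
    simp only [Matrix.transpose_apply, Matrix.of_apply, M.symmetric i j, eq_comm (a := i),
      and_comm (a := i ∈ _)]
  diagonal i := by simp
  off_diagonal i j h := by
    simp only [Matrix.of_apply, if_neg h]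
    split_ifs
    · exact M.off_diagonal i j h
    · norm_num

/-- The oracle solves the word problem in the Artin groups of the restrictions of `M` to the sets in
the list. -/
def Solves (M : CoxeterMatrix S) (O : Finset S → List (S × ℤ) → Bool) (Ds : List (Finset S)) :
    Prop :=
  ∀ D ∈ Ds, ∀ w : List (D × ℤ), O D (up w) = true ↔ value (restrict M D) w = 1

end Pool.Agent.Run7.h778.AW
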