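import Pool.Agent.Run7.h778.AW.Main
import Pool.Agent.TH107.RF.Res

/-!
# Artin groups of rank two type are residually finite (start library TH107), in our notation
-/

set_option autoImplicit false
set_option linter.unusedSectionVars false
set_option maxHeartbeats 400000

namespace Pool.Agent.Run7.h778.AW

open Pool.Agent.K7.H20.AW

section

variable {T : Type} [Fintype T] [DecidableEq T] {M : CoxeterMatrix T}

theorem alt_eq {G : Type*} [Monoid G] (m : ℕ) : ∀ a b : G,
    Pool.Agent.TH107.RF.alt m a b = altProd m a b := by
  induction m with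
  | zero => intro a b; rfl
  | succ m ih =>
    intro a b
    show a * Pool.Agent.TH107.RF.alt m b a = a * altProd m b a
    rw [ih]

theorem map_altProd {G H : Type*} [Monoid G] [Monoid H] (f : G →* H) (m : ℕ) : ∀ a b : G,
    f (altProd m a b) = altProd m (f a) (f b) := by
  induction m with
  | zero => intro a b; exact map_one f
  | succ m ih =>
    intro a b
    rw [altProd, altProd, map_mul, ih]

theorem art_rel (s t : T) : altProd (M s t) (PresentedGroup.of s : ArtinGroup M)
    (PresentedGroup.of t) = altProd (M s t) (PresentedGroup.of t) (PresentedGroup.of s) := by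
  have h : (PresentedGroup.mk {r : FreeGroup T | ∃ s t : T, r =
      altProd (M s t) (FreeGroup.of s) (FreeGroup.of t) *
        (altProd (M s t) (FreeGroup.of t) (FreeGroup.of s))⁻¹})
      (altProd (M s t) (FreeGroup.of s) (FreeGroup.of t) *
        (altProd (M s t) (FreeGroup.of t) (FreeGroup.of s))⁻¹) = 1 :=
    PresentedGroup.one_of_mem ⟨s, t, rfl⟩
  rw [map_mul, map_inv, mul_inv_eq_one, map_altProd, map_altProd] at h
  exact h

/-- the two presentations -/
def toTH : ArtinGroup M →* Pool.Agent.TH107.RF.Art M :=
  PresentedGroup.toGroup (f := fun s => Pool.Agent.TH107.RF.sg M s) (by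
    rintro _ ⟨s, t, rfl⟩
    rw [map_mul, map_inv, map_altProd, map_altProd, FreeGroup.lift_apply_of,
      FreeGroup.lift_apply_of, mul_inv_eq_one]
    by_cases h : M s t = 0
    · rw [h]
      rfl
    · have h1 := Pool.Agent.TH107.RF.sg_braid h
      rw [alt_eq, alt_eq] at h1
      exact h1)

/-- the two presentations -/
def ofTH : Pool.Agent.TH107.RF.Art M →* ArtinGroup M :=
  PresentedGroup.toGroup (f := fun s => PresentedGroup.of s) (by
    rintro _ ⟨s, t, _, rfl⟩
    rw [map_mul, map_inv, alt_eq, alt_eq, map_altProd, map_altProd, FreeGroup.lift_apply_of,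
      FreeGroup.lift_apply_of, mul_inv_eq_one]
    exact art_rel s t)

theorem toTH_of (s : T) : toTH (M := M) (PresentedGroup.of s) = Pool.Agent.TH107.RF.sg M s := by
  unfold toTH
  rw [PresentedGroup.toGroup.of]

theorem ofTH_of (s : T) : ofTH (M := M) (Pool.Agent.TH107.RF.sg M s) = PresentedGroup.of s := by
  unfold ofTH Pool.Agent.TH107.RF.sg
  rw [PresentedGroup.toGroup.of]

theorem ofTH_toTH (w : List (T × ℤ)) : ofTH (toTH (value M w)) = value M w := by
  induction w with
  | nil =>
    have h : value M [] = 1 := rfl
    rw [h, map_one, map_one]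
  | cons p w ih =>
    have h : value M (p :: w) = (PresentedGroup.of p.1 : ArtinGroup M) ^ p.2 * value M w := by
      simp only [value, List.map_cons, List.prod_cons]
    rw [h, map_mul, map_mul, ih, map_zpow, map_zpow, toTH_of, ofTH_of]

theorem dies_iff (hR : RankTwo M) (w : List (T × ℤ)) :
    value M w = 1 ↔ DiesInFiniteQuotients M w := by
  constructor
  · intro h F _ _ f
    rw [h, map_one]
  · intro h
    by_contra hw
    have h1 : toTH (value M w) ≠ 1 := by
      intro h2
      apply hw
      rw [← ofTH_toTH w, h2, map_one]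
    obtain ⟨F, i1, i2, ψ, hψ⟩ := Pool.Agent.TH107.RF.res_finite M hR h1
    exact hψ (h F (ψ.comp toTH))

end

section

variable {S : Type} [Fintype S] [DecidableEq S]

theorem localize_apply (M : CoxeterMatrix S) (Ds : List (Finset S)) (i j : S) :
    localize M Ds i j = if i = j then 1 else if ∃ D ∈ Ds, i ∈ D ∧ j ∈ D then M i j else 0 := rfl

theorem localize_main (M : CoxeterMatrix S) (t : Tr S) :
    value M t.word = 1 ↔ value (localize M (sets t ∅)) t.word = 1 := by
  apply locality
  intro D hD i hi j hj
  rw [localize_apply]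
  by_cases hij : i = j
  · rw [if_pos hij, hij, M.diagonal]
  · rw [if_neg hij, if_pos ⟨D, hD, hi, hj⟩]

theorem localize_fin (M : CoxeterMatrix S) (t : Tr S) (hR : RankTwo (localize M (sets t ∅))) :
    value M t.word = 1 ↔ DiesInFiniteQuotients (localize M (sets t ∅)) t.word := by
  rw [localize_main, dies_iff hR]

theorem rankTwo_of_card {D : Finset S} (M : CoxeterMatrix S) (hD : D.card ≤ 2) :
    RankTwo (restrict M D) := by
  intro i j k hik hij hjk
  exfalso
  have h1 : i ≠ j := by
    rintro rfl
    rw [(restrict M D).diagonal] at hij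
    omega
  have h2 : j ≠ k := by
    rintro rfl
    rw [(restrict M D).diagonal] at hjk
    omega
  have h3 : ({i.1, j.1, k.1} : Finset S) ⊆ D := by
    intro x hx
    simp only [Finset.mem_insert, Finset.mem_singleton] at hx
    rcases hx with rfl | rfl | rfl
    · exact i.2
    · exact j.2
    · exact k.2
  have h4 : ({i.1, j.1, k.1} : Finset S).card = 3 := by
    rw [Finset.card_eq_three]
    exact ⟨i.1, j.1, k.1, fun h => h1 (Subtype.ext h), fun h => hik (Subtype.ext h),
      fun h => h2 (Subtype.ext h), rfl⟩
  have := Finset.card_le_card h3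
  omega

/-- the reduction with finite quotients -/
theorem main_fin (M : CoxeterMatrix S) {L : List S} (hL : ∀ s, s ∈ L) (t : Tr S)
    (hR : ∀ D ∈ sets t ∅, RankTwo (restrict M D)) (O : Finset S → List (S × ℤ) → Bool)
    (hO : ∀ D ∈ sets t ∅, ∀ w : List (D × ℤ), O D (up w) = true ↔
      DiesInFiniteQuotients (restrict M D) w) :
    value M t.word = 1 ↔ [] ∈ alg L O t ∅ := by
  refine main M hL t O fun D hD w => ?_
  rw [hO D hD w, ← dies_iff (hR D hD)]

end

end Pool.Agent.Run7.h778.AW
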