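import Pool.Agent.Run7.h778.AW.Track

/-!
# The reduction along binary trees is correct
-/

set_option autoImplicit false
set_option linter.unusedSectionVars false

namespace Pool.Agent.Run7.h778.AW

open Pool.Agent.K7.H20.AW Pool.Agent.K7.H87.FJ6 CoxeterSystem

section gen

variable {S : Type} [Fintype S] [DecidableEq S] {M : CoxeterMatrix S}

theorem mem_gens {u : List (S × ℤ)} {s : S} : s ∈ gens u ↔ ∃ p ∈ u, p.1 = s := by
  simp [gens]

theorem val_gens (u : List (S × ℤ)) : val M u ∈ P M (gens u : Set S) :=
  val_mem fun p hp => Finset.mem_coe.2 (mem_gens.2 ⟨p, hp, rfl⟩)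

theorem gens_append (u v : List (S × ℤ)) : gens (u ++ v) = gens u ∪ gens v := by
  ext s
  simp only [Finset.mem_union, mem_gens, List.mem_append]
  constructor
  · rintro ⟨p, hp | hp, rfl⟩
    · exact Or.inl ⟨p, hp, rfl⟩
    · exact Or.inr ⟨p, hp, rfl⟩
  · rintro (⟨p, hp, rfl⟩ | ⟨p, hp, rfl⟩)
    · exact ⟨p, Or.inl hp, rfl⟩
    · exact ⟨p, Or.inr hp, rfl⟩

theorem P_cap {x : Art M} {X Y : Finset S} (h : x ∈ P M (X : Set S)) (h' : x ∈ P M (Y : Set S)) :
    x ∈ P M ((X ∩ Y : Finset S) : Set S) := by
  rw [Finset.coe_inter]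
  exact P_inter h h'

theorem P_le {x : Art M} {X Y : Finset S} (h : x ∈ P M (X : Set S)) (hXY : X ⊆ Y) :
    x ∈ P M (Y : Set S) := P_mono (Finset.coe_subset.2 hXY) h

theorem Small.append {D X Y : Finset S} {d e : List (S × ℤ)} (hd : ∀ p ∈ d, p.1 ∈ X)
    (he : ∀ p ∈ e, p.1 ∈ Y) (hX : X ⊆ D) (hY : Y ⊆ D) : ∀ p ∈ d ++ e, p.1 ∈ D := by
  intro p hp
  rcases List.mem_append.1 hp with h | h
  · exact hX (hd p h)
  · exact hY (he p h)

theorem over_invw {D : Finset S} {d : List (S × ℤ)} (hd : ∀ p ∈ d, p.1 ∈ D) :
    ∀ p ∈ invw d, p.1 ∈ D := by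
  intro p hp
  simp only [invw, List.mem_reverse, List.mem_map] at hp
  obtain ⟨q, hq, rfl⟩ := hp
  exact hd q hq

/-- products of three parabolic words -/
theorem three {X Y Z : Finset S} {x y z : List (S × ℤ)} (hx : ∀ p ∈ x, p.1 ∈ X)
    (hy : ∀ p ∈ y, p.1 ∈ Y) (hz : ∀ p ∈ z, p.1 ∈ Z) (h : val M x * val M y = val M z) :
    ∃ e a b : List (S × ℤ), Small (X ∩ Y) e (x.map Prod.snd) ∧
      Small (X ∩ Z) a ((x ++ invw e).map Prod.snd) ∧ Small (Y ∩ Z) b ((e ++ y).map Prod.snd) ∧
      val M x = val M a * val M e ∧ val M e * val M y = val M b ∧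
      val M a * val M b = val M z := by
  have hxX : val M x ∈ P M (X : Set S) := val_mem hx
  have hyY : val M y ∈ P M (Y : Set S) := val_mem hy
  have hzZ : val M x * val M y ∈ P M (Z : Set S) := by
    rw [h]
    exact val_mem hz
  obtain ⟨a0, ha0, b0, hb0, hab⟩ := flag hxX hyY hzZ
  rw [← Finset.coe_inter] at ha0 hb0
  have hd0 : a0⁻¹ * val M x ∈ P M ((X ∩ Y : Finset S) : Set S) := by
    apply P_cap
    · exact mul_mem (inv_mem (P_le ha0 Finset.inter_subset_left)) hxX
    · have h1 : a0⁻¹ * val M x = b0 * (val M y)⁻¹ := by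
        rw [inv_mul_eq_iff_eq_mul, ← mul_assoc, ← hab, mul_inv_cancel_right]
      rw [h1]
      exact mul_mem (P_le hb0 Finset.inter_subset_left) (inv_mem hyY)
  obtain ⟨e, he, γ, hγ, h1⟩ := proj x ha0 hd0 (mul_inv_cancel_left _ _).symm
  rw [← Finset.coe_inter] at hγ
  have h2 : val M (x ++ invw e) ∈ P M ((X ∩ Z : Finset S) : Set S) := by
    have h3 : val M (x ++ invw e) = a0 * γ⁻¹ := by
      rw [val_append, val_invw, h1]
      group
    rw [h3]
    refine mul_mem ha0 (inv_mem (P_le hγ ?_))
    exact Finset.inter_subset_left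
  have h3 : val M (e ++ y) ∈ P M ((Y ∩ Z : Finset S) : Set S) := by
    have h4 : val M (e ++ y) = γ * b0 := by
      rw [val_append, h1, mul_assoc, mul_assoc, hab, inv_mul_cancel_left]
    rw [h4]
    refine mul_mem (P_le hγ ?_) hb0
    intro s hs
    simp only [Finset.mem_inter] at hs ⊢
    exact ⟨hs.2.2, hs.1.2⟩
  obtain ⟨a, ha, h4⟩ := proj_one _ h2
  obtain ⟨b, hb, h5⟩ := proj_one _ h3
  refine ⟨e, a, b, he, ha, hb, ?_, ?_, ?_⟩
  · rw [h4, val_append, val_invw, inv_mul_cancel_right]
  · rw [h5, val_append]
  · rw [h4, h5, val_append, val_append, val_invw, ← h]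
    group

/-- the answers of the oracle -/
theorem eq_of_over {D : Finset S} {u v : List (S × ℤ)} (hu : ∀ p ∈ u, p.1 ∈ D)
    (hv : ∀ p ∈ v, p.1 ∈ D) (O : Finset S → List (S × ℤ) → Bool)
    (hO : ∀ w : List (D × ℤ), O D (up w) = true ↔ value (restrict M D) w = 1) :
    O D (u ++ invw v) = true ↔ val M u = val M v := by
  obtain ⟨w, hw⟩ := exists_up (D := D) (u := u ++ invw v) (by
    intro p hp
    rcases List.mem_append.1 hp with h | h
    · exact hu p h
    · exact over_invw hv p h)
  rw [← hw, hO, value_up, hw, val_append, val_invw, mul_inv_eq_one]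

end gen

section alg

variable {S : Type} [Fintype S] [DecidableEq S] {M : CoxeterMatrix S}

theorem mem_cands {L : List S} (hL : ∀ s, s ∈ L) {D : Finset S} : ∀ {ks : List ℤ}
    {d : List (S × ℤ)}, d ∈ cands L D ks ↔ Small D d ks := by
  intro ks
  induction ks with
  | nil =>
    intro d
    simp only [cands, List.mem_singleton, Small, List.sublist_nil, List.map_eq_nil_iff]
    constructor
    · rintro rfl
      exact ⟨fun p hp => absurd hp List.not_mem_nil, rfl⟩
    · exact fun h => h.2
  | cons k ks ih =>
    intro d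
    simp only [cands, List.mem_append, List.mem_flatMap, List.mem_filter, hL, true_and,
      List.mem_map, decide_eq_true_eq, ih, Small]
    constructor
    · rintro (⟨h1, h2⟩ | ⟨s, hs, d', ⟨h1, h2⟩, rfl⟩)
      · exact ⟨h1, h2.cons _⟩
      · refine ⟨?_, ?_⟩
        · intro p hp
          rcases List.mem_cons.1 hp with rfl | h
          · exact hs
          · exact h1 p h
        · rw [List.map_cons]
          exact h2.cons_cons _
    · rintro ⟨h1, h2⟩
      cases d with
      | nil => exact Or.inl ⟨h1, List.nil_sublist _⟩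
      | cons p d =>
        rw [List.map_cons] at h2
        rcases List.sublist_cons_iff.1 h2 with h | ⟨r, hr, h⟩
        · refine Or.inl ⟨h1, ?_⟩
          rw [List.map_cons]
          exact h
        · obtain ⟨e1, e2⟩ := List.cons.inj hr
          refine Or.inr ⟨p.1, h1 p (by simp), d, ⟨fun q hq => h1 q (by simp [hq]), ?_⟩, ?_⟩
          · rw [e2]
            exact h
          · rw [← e1]

theorem Solves.mono {O : Finset S → List (S × ℤ) → Bool} {Ds Es : List (Finset S)}
    (h : Solves M O Ds) (hE : ∀ D ∈ Es, D ∈ Ds) : Solves M O Es := fun D hD => h D (hE D hD)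

/-- the output of the procedure -/
theorem alg_iff {L : List S} (hL : ∀ s, s ∈ L) (O : Finset S → List (S × ℤ) → Bool) :
    ∀ (t : Tr S) (V : Finset S), Solves M O (sets t V) → ∀ d : List (S × ℤ),
    (d ∈ alg L O t V → (∀ p ∈ d, p.1 ∈ gens t.word ∩ V) ∧ val M t.word = val M d) ∧
    (val M t.word ∈ P M (V : Set S) → Small (gens t.word ∩ V) d (t.word.map Prod.snd) →
      val M t.word = val M d → d ∈ alg L O t V) := by
  intro t
  induction t with
  | leaf u =>
    intro V hO d
    have hu : ∀ p ∈ u, p.1 ∈ gens u := fun p hp => mem_gens.2 ⟨p, hp, rfl⟩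
    have hO' := hO (gens u) (by simp [sets])
    refine ⟨fun h => ?_, fun _ h1 h2 => ?_⟩
    · simp only [alg, List.mem_filter, mem_cands hL] at h
      refine ⟨h.1.1, ?_⟩
      exact (eq_of_over hu (fun p hp => (Finset.mem_inter.1 (h.1.1 p hp)).1) O hO').1 h.2
    · simp only [alg, List.mem_filter, mem_cands hL]
      exact ⟨h1, (eq_of_over hu (fun p hp => (Finset.mem_inter.1 (h1.1 p hp)).1) O hO').2 h2⟩
  | node l r ihl ihr =>
    intro V hO d
    have IHl := ihl _ (hO.mono (Es := sets l (gens r.word ∪ V)) fun D hD => by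
      simp only [sets, List.mem_cons, List.mem_append]
      exact Or.inr (Or.inr (Or.inr (Or.inl hD))))
    have IHr := ihr _ (hO.mono (Es := sets r (gens l.word ∪ V)) fun D hD => by
      simp only [sets, List.mem_cons, List.mem_append]
      exact Or.inr (Or.inr (Or.inr (Or.inr hD))))
    have hOX := hO (gens l.word ∩ (gens r.word ∪ V)) (by simp [sets])
    have hOY := hO (gens r.word ∩ (gens l.word ∪ V)) (by simp [sets])
    have hOZ := hO (gens (l.word ++ r.word) ∩ V) (by simp [sets])
    set X := gens l.word ∩ (gens r.word ∪ V) with hX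
    set Y := gens r.word ∩ (gens l.word ∪ V) with hY
    set Z := gens (l.word ++ r.word) ∩ V with hZ
    refine ⟨fun h => ?_, fun h0 h1 h2 => ?_⟩
    · simp only [alg, List.mem_flatMap, List.mem_filter, mem_cands hL] at h
      obtain ⟨x, hx, y, hy, e, he, a, ⟨ha, ha'⟩, b, ⟨hb, hb'⟩, hd, hd'⟩ := h
      rw [← hX] at he ha ha'
      rw [← hY] at he hb hb'
      rw [← hZ] at ha hb hd hd'
      obtain ⟨hx1, hx2⟩ := (IHl x).1 hx
      obtain ⟨hy1, hy2⟩ := (IHr y).1 hy
      refine ⟨hd.1, ?_⟩
      have e1 := (eq_of_over hx1 (Small.append ha.1 he.1 Finset.inter_subset_left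
        Finset.inter_subset_left) O hOX).1 ha'
      have e2 := (eq_of_over (Small.append he.1 hy1 Finset.inter_subset_right
        (Finset.Subset.refl _)) (fun p hp => (Finset.mem_inter.1 (hb.1 p hp)).1) O hOY).1 hb'
      have e3 := (eq_of_over (Small.append ha.1 hb.1 Finset.inter_subset_right
        Finset.inter_subset_right) hd.1 O hOZ).1 hd'
      rw [val_append] at e1 e2 e3
      show val M (l.word ++ r.word) = val M d
      rw [val_append, hx2, hy2, e1, mul_assoc, e2, e3]
    · have h0' : val M (l.word ++ r.word) ∈ P M (V : Set S) := h0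
      rw [val_append] at h0'
      have hl : val M l.word ∈ P M ((gens r.word ∪ V : Finset S) : Set S) := by
        have e1 : val M l.word = val M l.word * val M r.word * (val M r.word)⁻¹ :=
          (mul_inv_cancel_right _ _).symm
        rw [e1]
        exact mul_mem (P_mono (Finset.coe_subset.2 Finset.subset_union_right) h0')
          (inv_mem (P_le (val_gens _) Finset.subset_union_left))
      have hr : val M r.word ∈ P M ((gens l.word ∪ V : Finset S) : Set S) := by
        have e1 : val M r.word = (val M l.word)⁻¹ * (val M l.word * val M r.word) :=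
          (inv_mul_cancel_left _ _).symm
        rw [e1]
        exact mul_mem (inv_mem (P_le (val_gens _) Finset.subset_union_left))
          (P_mono (Finset.coe_subset.2 Finset.subset_union_right) h0')
      obtain ⟨x, hx, hx'⟩ := proj_one l.word (P_cap (val_gens l.word) hl)
      obtain ⟨y, hy, hy'⟩ := proj_one r.word (P_cap (val_gens r.word) hr)
      have hxm := (IHl x).2 hl hx hx'.symm
      have hym := (IHr y).2 hr hy hy'.symm
      have hd1 : ∀ p ∈ d, p.1 ∈ Z := h1.1
      have hxyz : val M x * val M y = val M d := by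
        rw [hx', hy', ← val_append]
        exact h2
      obtain ⟨e, a, b, he, ha, hb, e1, e2, e3⟩ := three hx.1 hy.1 hd1 hxyz
      simp only [alg, List.mem_flatMap, List.mem_filter, mem_cands hL]
      refine ⟨x, hxm, y, hym, e, he, a, ⟨ha, ?_⟩, b, ⟨hb, ?_⟩, h1, ?_⟩
      · refine (eq_of_over hx.1 (Small.append ha.1 he.1 Finset.inter_subset_left
          Finset.inter_subset_left) O hOX).2 ?_
        rw [e1, val_append]
      · refine (eq_of_over (Small.append he.1 hy.1 Finset.inter_subset_right
          (Finset.Subset.refl _)) (fun p hp => (Finset.mem_inter.1 (hb.1 p hp)).1) O hOY).2 ?_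
        rw [← e2, val_append]
      · refine (eq_of_over (Small.append ha.1 hb.1 Finset.inter_subset_right
          Finset.inter_subset_right) hd1 O hOZ).2 ?_
        rw [← e3, val_append]

/-- **the reduction is correct** -/
theorem main (M : CoxeterMatrix S) {L : List S} (hL : ∀ s, s ∈ L) (t : Tr S)
    (O : Finset S → List (S × ℤ) → Bool) (hO : Solves M O (sets t ∅)) :
    value M t.word = 1 ↔ [] ∈ alg L O t ∅ := by
  rw [value_iff]
  constructor
  · intro h
    refine (alg_iff (M := M) hL O t ∅ hO []).2 ?_ ⟨fun p hp => absurd hp List.not_mem_nil,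
      List.nil_sublist _⟩ ?_
    · rw [h]
      exact one_mem _
    · rw [h]
      rfl
  · intro h
    rw [((alg_iff (M := M) hL O t ∅ hO []).1 h).2]
    rfl

/-- **locality** -/
theorem locality (M M' : CoxeterMatrix S) (t : Tr S)
    (h : ∀ D ∈ sets t ∅, ∀ i ∈ D, ∀ j ∈ D, M i j = M' i j) :
    value M t.word = 1 ↔ value M' t.word = 1 := by
  classical
  let O : Finset S → List (S × ℤ) → Bool := fun D w =>
    decide (∃ u : List (D × ℤ), up u = w ∧ value (restrict M D) u = 1)
  have hup : ∀ {D : Finset S} {u v : List (D × ℤ)}, up u = up v → u = v := by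
    intro D u v huv
    have hinj : Function.Injective (fun p : D × ℤ => (p.1.1, p.2)) := by
      rintro ⟨a, k⟩ ⟨b, l⟩ hab
      simp only [Prod.mk.injEq] at hab
      exact Prod.ext (Subtype.ext hab.1) hab.2
    exact List.map_injective_iff.2 hinj huv
  have h1 : Solves M O (sets t ∅) := by
    intro D _ w
    simp only [O, decide_eq_true_eq]
    constructor
    · rintro ⟨u, hu, h2⟩
      rwa [← hup hu]
    · exact fun h2 => ⟨w, rfl, h2⟩
  have h2 : Solves M' O (sets t ∅) := by
    intro D hD w
    have h3 : restrict M D = restrict M' D := by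
      have h4 : (restrict M D).M = (restrict M' D).M := by
        ext i j
        exact h D hD i.1 i.2 j.1 j.2
      cases h5 : restrict M D
      cases h6 : restrict M' D
      rw [h5, h6] at h4
      simp only at h4
      subst h4
      rfl
    rw [h1 D hD w, h3]
  have hL : ∀ s, s ∈ (Finset.univ : Finset S).toList := fun s => by simp
  rw [main M hL t O h1, main M' hL t O h2]

/-- **right-angled sets** -/
theorem right_angled (M : CoxeterMatrix S) (t : Tr S)
    (h : ∀ D ∈ sets t ∅, ∀ i ∈ D, ∀ j ∈ D, i ≠ j → M i j = 2 ∨ M i j = 0) :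
    value M t.word = 1 ↔ reduce M t.word = [] := by
  rw [locality M (ra M) t fun D hD i hi j hj => ?_, value_iff, ← reduce_iff]
  rw [ra_apply]
  by_cases hij : i = j
  · rw [if_pos hij, hij, M.diagonal]
  · rw [if_neg hij]
    rcases h D hD i hi j hj hij with h1 | h1
    · rw [if_pos h1, h1]
    · rw [h1, if_neg (by norm_num)]

theorem card_gens_le (u : List (S × ℤ)) : (gens u).card ≤ u.length := by
  unfold gens
  exact (List.toFinset_card_le _).trans (by rw [List.length_map])

/-- short words have small width -/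
theorem short (k : ℕ) (w : List (S × ℤ)) (hw : w.length ≤ 3 * k) :
    ∃ t : Tr S, t.word = w ∧ ∀ D ∈ sets t ∅, D.card ≤ k := by
  have h1 : (gens (w.take k)).card ≤ k := (card_gens_le _).trans (by simp)
  have h2 : (gens ((w.drop k).take k)).card ≤ k := (card_gens_le _).trans (by simp)
  have h3 : (gens ((w.drop k).drop k)).card ≤ k :=
    (card_gens_le _).trans (by rw [List.length_drop, List.length_drop]; omega)
  refine ⟨.node (.leaf (w.take k)) (.node (.leaf ((w.drop k).take k)) (.leaf ((w.drop k).drop k))),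
    ?_, ?_⟩
  · show w.take k ++ ((w.drop k).take k ++ (w.drop k).drop k) = w
    rw [List.take_append_drop, List.take_append_drop]
  · intro D hD
    simp only [sets, Tr.word, List.mem_cons, List.mem_append, List.not_mem_nil, or_false,
      List.cons_append, List.nil_append, false_or] at hD
    rcases hD with rfl | rfl | rfl | rfl | rfl | rfl | rfl | rfl | rfl
    · exact (Finset.card_le_card Finset.inter_subset_left).trans h1
    · refine (Finset.card_le_card ?_).trans h1
      refine Finset.inter_subset_right.trans ?_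
      rw [Finset.union_empty]
    · rw [Finset.inter_empty]
      simp
    · exact h1
    · exact (Finset.card_le_card Finset.inter_subset_left).trans h2
    · exact (Finset.card_le_card Finset.inter_subset_left).trans h3
    · refine (Finset.card_le_card ?_).trans h1
      refine Finset.inter_subset_right.trans ?_
      rw [Finset.union_empty]
    · exact h2
    · exact h3

end alg

end Pool.Agent.Run7.h778.AW
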