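import Pool.Agent.K7.H20.AW.Fin
import Pool.Agent.K7.H20.AW.Flag
import Pool.Agent.Run7.h778.AW.Defs

/-!
# Tracking words: syllables of the labels are syllables of the word with other generators
-/

set_option autoImplicit false
set_option linter.unusedSectionVars false

namespace Pool.Agent.Run7.h778.AW

open Pool.Agent.K7.H20.AW Pool.Agent.K7.H87.FJ6 CoxeterSystem

theorem zpow_line {α G : Type*} [Group G] (f : Equiv.Perm α) (φ : G → α) (x : G)
    (h : ∀ a, f (φ a) = φ (x * a)) (k : ℤ) : ∀ a, (f ^ k) (φ a) = φ (x ^ k * a) := by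
  induction k using Int.induction_on with
  | zero => intro a; simp
  | succ i ih => intro a; rw [zpow_add_one, Equiv.Perm.mul_apply, h, ih, zpow_add_one, mul_assoc]
  | pred i ih =>
    intro a
    have h1 : f⁻¹ (φ a) = φ (x⁻¹ * a) := by
      rw [Equiv.Perm.inv_eq_iff_eq, h, mul_inv_cancel_left]
    rw [zpow_sub_one, Equiv.Perm.mul_apply, h1, ih, zpow_sub_one, mul_assoc]

section track

variable {A B : Type*} [Fintype B] [DecidableEq B] {M : CoxeterMatrix B}
variable {W : Type*} [Group W] {cs : CoxeterSystem M W} {ι : A → B} {hι : Function.Injective ι}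

/-- the value in the group of the labels -/
def vl (M : CoxeterMatrix B) (ι : A → B) (hι : Function.Injective ι) (c : List (A × ℤ)) :
    Sh (pull M ι hι) (z0 B ∘ ι) :=
  (c.map fun p => (Sh.gen (pull M ι hι) (z0 B ∘ ι) p.1) ^ p.2).prod

theorem vl_append (c d : List (A × ℤ)) : vl M ι hι (c ++ d) = vl M ι hι c * vl M ι hι d := by
  simp [vl]

theorem inc_vl (c : List (A × ℤ)) :
    inc M (z0 B) ι hι (vl M ι hι c) = val M (c.map fun p => (ι p.1, p.2)) := by
  induction c with
  | nil => exact map_one _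
  | cons p c ih =>
    have h : vl M ι hι (p :: c) = (Sh.gen (pull M ι hι) (z0 B ∘ ι) p.1) ^ p.2 * vl M ι hι c := by
      simp [vl]
    rw [h, map_mul, ih, map_zpow, inc_gen, List.map_cons, val_cons]

/-- one syllable -/
theorem syll (b : B) (k : ℤ) (v : {v : W // Mn cs ι v}) :
    ∃ (c : List (A × ℤ)) (v' : {v : W // Mn cs ι v}), (c.map Prod.snd).Sublist [k] ∧
      ∀ a, ac cs ι hι (g M b ^ k) (a, v) = (vl M ι hι c * a, v') := by
  by_cases h : ∃ x, cs.simple b * v.1 = v.1 * cs.simple (ι x)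
  · obtain ⟨x, hx⟩ := h
    refine ⟨[(x, k)], v, List.Sublist.refl _, fun a => ?_⟩
    have h1 := zpow_line (ac cs ι hι (g M b)) (fun a : Sh (pull M ι hι) (z0 B ∘ ι) => (a, v))
      (Sh.gen _ _ x) (fun a => ac_pos hx) k a
    rw [map_zpow]
    have h2 : vl M ι hι [(x, k)] = (Sh.gen (pull M ι hι) (z0 B ∘ ι) x) ^ k := by simp [vl]
    rw [h2]
    exact h1
  · have a1 : ∀ a, ac cs ι hι (g M b) (a, v) = (a, ⟨cs.simple b * v.1, Mn_move cs ι v.2 h⟩) :=
      fun a => ac_neg h
    have a2 : ∀ a, ac cs ι hι (g M b) (a, ⟨cs.simple b * v.1, Mn_move cs ι v.2 h⟩) = (a, v) := by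
      intro a
      rw [ac_neg (v := ⟨cs.simple b * v.1, Mn_move cs ι v.2 h⟩) (back cs ι h)]
      refine Prod.ext rfl (Subtype.ext ?_)
      show cs.simple b * (cs.simple b * v.1) = v.1
      rw [← mul_assoc, cs.simple_mul_simple_self, one_mul]
    rcases Int.even_or_odd k with hk | hk
    · refine ⟨[], v, List.nil_sublist _, fun a => ?_⟩
      rw [map_zpow, (zpow_swap _ (a1 a) (a2 a) k).1 hk]
      simp [vl]
    · refine ⟨[], ⟨cs.simple b * v.1, Mn_move cs ι v.2 h⟩, List.nil_sublist _, fun a => ?_⟩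
      rw [map_zpow, (zpow_swap _ (a1 a) (a2 a) k).2 hk]
      simp [vl]

/-- words -/
theorem wtrack : ∀ (u : List (B × ℤ)) (v : {v : W // Mn cs ι v}),
    ∃ (c : List (A × ℤ)) (v' : {v : W // Mn cs ι v}),
      (c.map Prod.snd).Sublist (u.map Prod.snd) ∧
      ∀ a, ac cs ι hι (val M u) (a, v) = (vl M ι hι c * a, v') := by
  intro u
  induction u with
  | nil =>
    intro v
    refine ⟨[], v, List.Sublist.refl _, fun a => ?_⟩
    rw [val_nil, map_one]
    simp [vl]
  | cons p u ih =>
    intro v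
    obtain ⟨c, v', hc, h⟩ := ih v
    obtain ⟨c', v'', hc', h'⟩ := syll (cs := cs) (ι := ι) (hι := hι) p.1 p.2 v'
    refine ⟨c' ++ c, v'', ?_, fun a => ?_⟩
    · rw [List.map_append, List.map_cons]
      exact List.Sublist.append hc' hc
    · rw [val_cons, map_mul, Equiv.Perm.mul_apply, h, h', vl_append, mul_assoc]

end track

section words

variable {S : Type} [Fintype S] [DecidableEq S] {M : CoxeterMatrix S}

/-- the word is obtained by deleting syllables and renaming the generators by elements of `D` -/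
def Small (D : Finset S) (d : List (S × ℤ)) (ks : List ℤ) : Prop :=
  (∀ p ∈ d, p.1 ∈ D) ∧ (d.map Prod.snd).Sublist ks

theorem Small.mem {D : Finset S} {d : List (S × ℤ)} {ks : List ℤ} (h : Small D d ks) :
    val M d ∈ P M (D : Set S) := val_mem h.1

/-- projection of a word to a parabolic subgroup, in words -/
theorem proj {Z : Set S} {D : Finset S} (u : List (S × ℤ)) {a d : Art M} (ha : a ∈ P M Z)
    (hd : d ∈ P M (D : Set S)) (h : val M u = a * d) :
    ∃ e : List (S × ℤ), Small D e (u.map Prod.snd) ∧ ∃ γ ∈ P M (Z ∩ (D : Set S)),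
      val M e = γ * d := by
  let cs := M.toCoxeterSystem
  let ι : D → S := Subtype.val
  have hι : Function.Injective ι := Subtype.val_injective
  have hr : Set.range ι = (D : Set S) := Subtype.range_coe
  rw [← hr] at hd
  obtain ⟨z, rfl⟩ := P_range (hι := hι) hd
  let p1 : {v : M.Group // Mn cs ι v} := ⟨1, Mn_one cs ι⟩
  obtain ⟨c, v, hc, h1⟩ := wtrack (cs := cs) (ι := ι) (hι := hι) u p1
  obtain ⟨c0, hc0, v', _, h2⟩ := tk_one (cs := cs) (ι := ι) (hι := hι) ha z p1 (one_mem _)
  have h3 := h1 1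
  rw [h, map_mul, Equiv.Perm.mul_apply, ac_inc, mul_one, mul_one, h2] at h3
  have h4 : vl M ι hι c = c0 * z := (congrArg Prod.fst h3).symm
  refine ⟨c.map fun p => (ι p.1, p.2), ⟨?_, ?_⟩, inc M (z0 S) ι hι c0, ?_, ?_⟩
  · intro p hp
    rw [List.mem_map] at hp
    obtain ⟨q, _, rfl⟩ := hp
    exact q.1.2
  · rw [List.map_map]
    exact hc
  · refine P_mono ?_ (inc_mem hc0)
    rintro _ ⟨x, hx, rfl⟩
    exact ⟨hx, x.2⟩
  · rw [← inc_vl (hι := hι), h4, map_mul]

theorem P_empty_eq {x : Art M} (h : x ∈ P M (∅ : Set S)) : x = 1 := by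
  unfold P at h
  rw [Set.image_empty, Subgroup.closure_empty] at h
  exact Subgroup.mem_bot.1 h

/-- an element of a parabolic subgroup given by a word -/
theorem proj_one {D : Finset S} (u : List (S × ℤ)) (hd : val M u ∈ P M (D : Set S)) :
    ∃ e : List (S × ℤ), Small D e (u.map Prod.snd) ∧ val M e = val M u := by
  obtain ⟨e, he, γ, hγ, h⟩ := proj (Z := ∅) u (one_mem _) hd (one_mul _).symm
  refine ⟨e, he, ?_⟩
  rw [Set.empty_inter] at hγ
  rw [h, P_empty_eq hγ, one_mul]

theorem val_invw (u : List (S × ℤ)) : val M (invw u) = (val M u)⁻¹ := by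
  induction u with
  | nil => simp [invw, val]
  | cons p u ih =>
    have h : invw (p :: u) = invw u ++ [(p.1, -p.2)] := by simp [invw]
    rw [h, val_append, ih, val_cons, val_cons, val_nil, mul_one, mul_inv_rev, zpow_neg]

/-- words over `D` -/
theorem exists_up {D : Finset S} : ∀ {u : List (S × ℤ)}, (∀ p ∈ u, p.1 ∈ D) →
    ∃ u' : List (D × ℤ), up u' = u := by
  intro u
  induction u with
  | nil => intro _; exact ⟨[], rfl⟩
  | cons p u ih =>
    intro h
    obtain ⟨u', hu'⟩ := ih fun q hq => h q (by simp [hq])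
    refine ⟨(⟨p.1, h p (by simp)⟩, p.2) :: u', ?_⟩
    show (p.1, p.2) :: up u' = p :: u
    rw [hu']

theorem restrict_eq (D : Finset S) : restrict M D =
    pull M (Subtype.val : D → S) Subtype.val_injective := rfl

/-- van der Lek's theorem for words -/
theorem value_up {D : Finset S} (u : List (D × ℤ)) :
    value (restrict M D) u = 1 ↔ val M (up u) = 1 := by
  rw [value_iff]
  have h1 : inc M (z0 S) (Subtype.val : D → S) Subtype.val_injective
      (vl M (Subtype.val : D → S) Subtype.val_injective u) = val M (up u) := inc_vl u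
  rw [← h1, map_eq_one_iff _ (inc_injective (adm0 M) _ Subtype.val_injective)]
  exact Iff.rfl

end words

end Pool.Agent.Run7.h778.AW
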